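import Pool.Agent.Q27.VS.Stm2

/-!
# Job SPARSE of project VS2 (helper27), by helper220
-/

set_option autoImplicit false

open Set Topology Filter

namespace Pool.Agent.Q220.VS

open Pool.Agent.Q27.VS

section

variable {X : Type} [TopologicalSpace X]

theorem comm_fix (f f' : X ≃ₜ X) (C : Set X) (hf : ∀ y ∈ C, f⁻¹ y ∈ C)
    (hf' : ∀ y ∈ C, f'⁻¹ y ∈ C) (hd : ∀ y ∈ C, f y = y ∨ f' y = y) :
    ∀ y ∈ C, (f * f' * f⁻¹ * f'⁻¹) y = y := by
  intro y hy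
  have e : ∀ (h : X ≃ₜ X) z, h (h⁻¹ z) = z := fun h z => by simp
  have e' : ∀ (h : X ≃ₜ X) z, h⁻¹ (h z) = z := fun h z => by simp
  show f (f' (f⁻¹ (f'⁻¹ y))) = y
  by_cases h : f' y = y
  · have h1 : f'⁻¹ y = y := by
      conv_lhs => rw [← h]
      exact e' f' y
    rw [h1]
    have h2 : f' (f⁻¹ y) = f⁻¹ y := by
      rcases hd _ (hf y hy) with h3 | h3
      · rw [e] at h3
        rw [← h3]; exact h
      · exact h3
    rw [h2, e]
  · have h1 : f y = y := (hd y hy).resolve_right h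
    have h2 : f (f'⁻¹ y) = f'⁻¹ y := by
      rcases hd _ (hf' y hy) with h3 | h3
      · exact h3
      · exfalso
        rw [e] at h3
        apply h
        conv_lhs => rw [h3]
        exact e f' y
    have h3 : f⁻¹ (f'⁻¹ y) = f'⁻¹ y := by
      conv_lhs => rw [← h2]
      exact e' f _
    rw [h3, e, h1]

theorem conj_app (g σ : X ≃ₜ X) (j : ℤ) (x : X) :
    ((g * σ * g⁻¹) ^ j) (g x) = g ((σ ^ j) x) := by
  rw [conj_zpow]
  show g ((σ ^ j) (g⁻¹ (g x))) = _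
  congr 2
  simp

theorem zz (σ : X ≃ₜ X) (i j : ℤ) (x : X) : (σ ^ i) ((σ ^ j) x) = (σ ^ (i + j)) x := by
  rw [zpow_add]; rfl

theorem sparse_aux (k M : ℕ) (v : Lev k M) (n : ℕ) (hn : 2 * v.L ≤ n) (σ : X ≃ₜ X)
    (U : Set X) (hU : Marker σ n U) (φ : Fin M → (X ≃ₜ X)) (hφ : ∀ m, Sup (φ m) U)
    (α : Fin k → (X ≃ₜ X)) (g : X ≃ₜ X)
    (eng : ∀ ι, ∀ u ∈ U, α ι.1 (g ((σ ^ v.a ι) u)) = g ((σ ^ v.b ι) (enM φ ι u)))
    (i : Fin k) (m m' : Fin M)
    (hne : φ m * φ m' ≠ φ m' * φ m)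
    (halt : ∀ x, x ∉ U → (∀ l, v.IsE l → ∀ u ∈ U, x ≠ (σ ^ l) u) → α i (g x) = g x) :
    ∃ x ∈ Subgroup.closure ({α i, g * σ * g⁻¹} : Set (X ≃ₜ X)), x ≠ 1 ∧ Sup x (g '' U) := by
  set K := Subgroup.closure ({α i, g * σ * g⁻¹} : Set (X ≃ₜ X)) with hK
  have hαK : α i ∈ K := Subgroup.subset_closure (by simp)
  have hσK : g * σ * g⁻¹ ∈ K := Subgroup.subset_closure (by simp)
  set β := g * σ * g⁻¹ with hβ
  have hβa : ∀ (j : ℤ) x, (β ^ j) (g x) = g ((σ ^ j) x) := fun j x => conj_app g σ j x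
  have e : ∀ (h : X ≃ₜ X) z, h (h⁻¹ z) = z := fun h z => by simp
  have e' : ∀ (h : X ≃ₜ X) z, h⁻¹ (h z) = z := fun h z => by simp
  -- the elements w
  let w : Fin M → Bool → (X ≃ₜ X) := fun m ν =>
    (β ^ (-(v.b (i, m, ν) : ℤ))) * α i * (β ^ (v.a (i, m, ν) : ℤ))
  have hwK : ∀ m ν, w m ν ∈ K := fun m ν =>
    K.mul_mem (K.mul_mem (K.zpow_mem hσK _) hαK) (K.zpow_mem hσK _)
  have hwU : ∀ m ν, ∀ u ∈ U, w m ν (g u) = g (enM φ (i, m, ν) u) := by
    intro m ν u hu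
    show (β ^ (-(v.b (i, m, ν) : ℤ))) (α i ((β ^ (v.a (i, m, ν) : ℤ)) (g u))) = _
    rw [hβa]
    have h1 := eng (i, m, ν) u hu
    simp only at h1
    rw [zpow_natCast, h1, hβa, zpow_neg, zpow_natCast]
    congr 1
    exact e' _ _
  let f : Fin M → (X ≃ₜ X) := fun m => w m false * (w m true)⁻¹
  have hfK : ∀ m, f m ∈ K := fun m => K.mul_mem (hwK _ _) (K.inv_mem (hwK _ _))
  have hfU : ∀ m, ∀ u ∈ U, f m (g u) = g (φ m u) := by
    intro m u hu
    have h1 : w m true (g u) = g u := by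
      rw [hwU m true u hu]; simp [enM]
    have h2 : (w m true)⁻¹ (g u) = g u := by
      conv_lhs => rw [← h1]
      exact e' _ _
    show w m false ((w m true)⁻¹ (g u)) = _
    rw [h2, hwU m false u hu]
    simp [enM]
  have hfUi : ∀ m, ∀ u ∈ U, (f m)⁻¹ (g u) = g ((φ m)⁻¹ u) := by
    intro m u hu
    have h1 := hfU m ((φ m)⁻¹ u) ((hφ m).inv.mem hu)
    rw [e] at h1
    rw [← h1]
    exact e' _ _
  -- a moved point outside
  have hmv : ∀ m, ∀ x, x ∉ U → f m (g x) ≠ g x → ∃ ν l, (l = 0 ∨ v.IsE l) ∧ ∃ u ∈ U,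
      (σ ^ ((v.b (i, m, ν) : ℕ) : ℤ)) x = (σ ^ (l : ℤ)) u := by
    intro m x hx hfx
    by_contra hcon
    push Not at hcon
    apply hfx
    have key : ∀ ν, α i (g ((σ ^ ((v.b (i, m, ν) : ℕ) : ℤ)) x)) =
        g ((σ ^ ((v.b (i, m, ν) : ℕ) : ℤ)) x) := by
      intro ν
      apply halt
      · intro h
        exact hcon ν 0 (Or.inl rfl) _ h (by simp)
      · intro l hl u hu h
        refine hcon ν l (Or.inr hl) u hu ?_
        rw [h, zpow_natCast]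
    have h1 : (w m true)⁻¹ (g x) =
        g ((σ ^ ((v.b (i, m, true) : ℤ) - (v.a (i, m, true) : ℤ))) x) := by
      have h2 : w m true (g ((σ ^ ((v.b (i, m, true) : ℤ) - (v.a (i, m, true) : ℤ))) x)) =
          g x := by
        show (β ^ (-(v.b (i, m, true) : ℤ))) (α i ((β ^ (v.a (i, m, true) : ℤ))
          (g ((σ ^ ((v.b (i, m, true) : ℤ) - (v.a (i, m, true) : ℤ))) x)))) = _
        rw [hβa, zz]
        have h3 : (v.a (i, m, true) : ℤ) + ((v.b (i, m, true) : ℤ) - (v.a (i, m, true) : ℤ)) =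
          (v.b (i, m, true) : ℤ) := by ring
        rw [h3, key true, hβa, zz]
        simp
      rw [← h2]
      exact e' _ _
    show w m false ((w m true)⁻¹ (g x)) = _
    rw [h1]
    show (β ^ (-(v.b (i, m, false) : ℤ))) (α i ((β ^ (v.a (i, m, false) : ℤ))
          (g ((σ ^ ((v.b (i, m, true) : ℤ) - (v.a (i, m, true) : ℤ))) x)))) = _
    rw [hβa, zz]
    have h3 : (v.a (i, m, false) : ℤ) + ((v.b (i, m, true) : ℤ) - (v.a (i, m, true) : ℤ)) =
        (v.b (i, m, false) : ℤ) := by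
      have := v.diff i m
      omega
    rw [h3, key false, hβa, zz]
    simp
  have hElt : ∀ l, (l = 0 ∨ v.IsE l) → l < v.L := by
    rintro l (rfl | ⟨ι, rfl⟩ | ⟨ι, rfl⟩ | ⟨j, rfl⟩ | ⟨j, rfl⟩)
    · exact lt_of_le_of_lt (Nat.zero_le _) (v.aL (i, m, true))
    · exact v.aL ι
    · exact v.bL ι
    · have := v.pL j; omega
    · exact v.pL j
  have hmm : m ≠ m' := by
    rintro rfl
    exact hne rfl
  have hboth : ∀ x, x ∉ U → f m (g x) = g x ∨ f m' (g x) = g x := by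
    intro x hx
    by_contra hcon
    push Not at hcon
    obtain ⟨ν, l, hl, u, hu, h1⟩ := hmv m x hx hcon.1
    obtain ⟨ν', l', hl', u', hu', h1'⟩ := hmv m' x hx hcon.2
    have hlL := hElt l hl
    have hlL' := hElt l' hl'
    have hb := v.bL (i, m, ν)
    have hb' := v.bL (i, m', ν')
    have h2 : x = (σ ^ ((l : ℤ) - (v.b (i, m, ν) : ℤ))) u := by
      have h3 : (σ ^ (-((v.b (i, m, ν) : ℕ) : ℤ))) ((σ ^ ((v.b (i, m, ν) : ℕ) : ℤ)) x) =
        (σ ^ (-((v.b (i, m, ν) : ℕ) : ℤ))) ((σ ^ (l : ℤ)) u) := by rw [h1]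
      rw [← Homeomorph.mul_apply, ← zpow_add, ← Homeomorph.mul_apply, ← zpow_add] at h3
      simp only [neg_add_cancel, zpow_zero, Homeomorph.one_apply] at h3
      rw [h3]
      congr 2
      ring
    have h2' : x = (σ ^ ((l' : ℤ) - (v.b (i, m', ν') : ℤ))) u' := by
      have h3 : (σ ^ (-((v.b (i, m', ν') : ℕ) : ℤ))) ((σ ^ ((v.b (i, m', ν') : ℕ) : ℤ)) x) =
        (σ ^ (-((v.b (i, m', ν') : ℕ) : ℤ))) ((σ ^ (l' : ℤ)) u') := by rw [h1']
      rw [← Homeomorph.mul_apply, ← zpow_add, ← Homeomorph.mul_apply, ← zpow_add] at h3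
      simp only [neg_add_cancel, zpow_zero, Homeomorph.one_apply] at h3
      rw [h3]
      congr 2
      ring
    have h4 : (σ ^ (((l : ℤ) - (v.b (i, m, ν) : ℤ)) - ((l' : ℤ) - (v.b (i, m', ν') : ℤ)))) u
        = u' := by
      have h5 : (σ ^ (-((l' : ℤ) - (v.b (i, m', ν') : ℤ)))) x = u' := by
        conv_lhs => rw [h2']
        rw [← Homeomorph.mul_apply, ← zpow_add]
        simp
      rw [← h5]
      conv_rhs => rw [h2]
      rw [← Homeomorph.mul_apply, ← zpow_add]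
      congr 2
      ring
    have h5 : ((l : ℤ) - (v.b (i, m, ν) : ℤ)) - ((l' : ℤ) - (v.b (i, m', ν') : ℤ)) = 0 := by
      by_contra h6
      refine hU.dis _ h6 ?_ u hu (by rw [h4]; exact hu')
      rw [abs_lt]
      constructor <;> omega
    have h6 : l + v.b (i, m', ν') = l' + v.b (i, m, ν) := by omega
    have h7 := v.comb i m m' hmm ν ν' l l' hl hl' h6
    apply hx
    rw [h2, h7]
    simpa using hu
  refine ⟨f m * f m' * (f m)⁻¹ * (f m')⁻¹, ?_, ?_, ?_⟩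
  · exact K.mul_mem (K.mul_mem (K.mul_mem (hfK m) (hfK m')) (K.inv_mem (hfK m)))
      (K.inv_mem (hfK m'))
  · intro h1
    apply hne
    have h2 : ∀ u ∈ U, φ m (φ m' ((φ m)⁻¹ ((φ m')⁻¹ u))) = u := by
      intro u hu
      have h3 : (f m * f m' * (f m)⁻¹ * (f m')⁻¹) (g u) = g u := by rw [h1]; rfl
      change f m (f m' ((f m)⁻¹ ((f m')⁻¹ (g u)))) = g u at h3
      have hu1 : (φ m')⁻¹ u ∈ U := (hφ m').inv.mem hu
      have hu2 : (φ m)⁻¹ ((φ m')⁻¹ u) ∈ U := (hφ m).inv.mem hu1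
      have hu3 : φ m' ((φ m)⁻¹ ((φ m')⁻¹ u)) ∈ U := (hφ m').mem hu2
      rw [hfUi m' u hu, hfUi m _ hu1, hfU m' _ hu2, hfU m _ hu3] at h3
      exact g.injective h3
    ext x
    show φ m (φ m' x) = φ m' (φ m x)
    by_cases hx : x ∈ U
    · have h3 := h2 (φ m' (φ m x)) ((hφ m').mem ((hφ m).mem hx))
      rw [e', e'] at h3
      exact h3
    · rw [hφ m' x hx, hφ m x hx, hφ m' x hx]
  · intro y hy
    have hCi : ∀ m, ∀ y ∈ (g '' U)ᶜ, (f m)⁻¹ y ∈ (g '' U)ᶜ := by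
      intro m y hy hy'
      apply hy
      obtain ⟨u, hu, h1⟩ := hy'
      refine ⟨φ m u, (hφ m).mem hu, ?_⟩
      rw [← hfU m u hu, h1, e]
    refine comm_fix (f m) (f m') (g '' U)ᶜ (hCi m) (hCi m') ?_ y hy
    intro z hz
    obtain ⟨x, rfl⟩ := g.surjective z
    exact hboth x (fun h => hz ⟨x, h, rfl⟩)

end

theorem sparse (X : Type) [TopologicalSpace X] : S_sparse X := by
  intro G k M v n hn σ U hU φ hφ α g hg i m m' hne halt
  exact sparse_aux k M v n hn σ U hU φ hφ α g hg.eng i m m' hne halt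

end Pool.Agent.Q220.VS
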